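import Pool.Agent.Z15.Q.Stm

/-!
# Q_DUAL (helper59 for helper15): duality of the generated arrays and the vanishing of contractions
-/

set_option autoImplicit false

open Pool.Agent.Z15.Q

namespace Pool.Agent.T2h59.Q15

variable {J : Type} {K A : J → Type}

/-- extension of a permutation by a fixed point -/
noncomputable def ext1 {n : ℕ} (ρ : Equiv.Perm (Fin n)) : Equiv.Perm (Fin (n + 1)) :=
  Equiv.Perm.decomposeFin.symm (0, ρ)

lemma ext1_zero {n : ℕ} (ρ : Equiv.Perm (Fin n)) : ext1 ρ 0 = 0 := by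
  rw [ext1, Equiv.Perm.decomposeFin_symm_apply_zero]

lemma ext1_succ {n : ℕ} (ρ : Equiv.Perm (Fin n)) (x : Fin n) : ext1 ρ x.succ = (ρ x).succ := by
  rw [ext1, Equiv.Perm.decomposeFin_symm_apply_succ, Equiv.swap_self]
  rfl

lemma ext1_sign {n : ℕ} (ρ : Equiv.Perm (Fin n)) :
    Equiv.Perm.sign (ext1 ρ) = Equiv.Perm.sign ρ := by
  rw [ext1, Equiv.Perm.decomposeFin.symm_sign]
  simp

lemma cons_comp {n : ℕ} {α : Type} (s : α) (τ : Fin n → α) (ρ : Equiv.Perm (Fin n)) :
    (Fin.cons s (τ ∘ ρ) : Fin (n + 1) → α) = (Fin.cons s τ : Fin (n + 1) → α) ∘ ext1 ρ := by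
  funext x
  refine Fin.cases ?_ (fun y => ?_) x
  · simp [ext1_zero]
  · simp [ext1_succ]

lemma anti_con [∀ j, Fintype (K j)] {i : ℕ} {a : Arr K A (i + 2)} (ha : Anti a) (j : J)
    (α β : A j) : Anti (con j α β a) := by
  intro ρ τ
  have key : ∀ s s' : Co K A, a (Fin.cons s (Fin.cons s' (τ ∘ ρ))) =
      ((Equiv.Perm.sign ρ : ℤ) : ℂ) * a (Fin.cons s (Fin.cons s' τ)) := by
    intro s s'
    rw [cons_comp, cons_comp, ha, ext1_sign, ext1_sign]
  simp only [con]
  rw [Finset.mul_sum]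
  refine Finset.sum_congr rfl fun k _ => ?_
  rw [key, key]
  ring

lemma anti_wdg {i : ℕ} (ω : Co K A → Co K A → ℂ) (η : Arr K A i) : Anti (wdg ω η) := by
  intro ρ b
  simp only [wdg]
  rw [Finset.mul_sum]
  refine Fintype.sum_equiv (Equiv.mulLeft ρ) _ _ fun σ => ?_
  have h : ((Equiv.Perm.sign ρ : ℤ) : ℂ) * ((Equiv.Perm.sign ρ : ℤ) : ℂ) = 1 := by
    rcases Int.units_eq_one_or (Equiv.Perm.sign ρ) with h | h <;> rw [h] <;> simp
  simp only [Equiv.coe_mulLeft, Equiv.Perm.sign_mul, Function.comp_apply, Equiv.Perm.coe_mul]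
  push_cast
  linear_combination (-((Equiv.Perm.sign σ : ℤ) : ℂ) * (ω (b (ρ (σ 0))) (b (ρ (σ 1))) *
    η (fun m => b (ρ (σ m.succ.succ))))) * h

lemma anti_sum {i : ℕ} {a a' : Arr K A i} (h : Anti a) (h' : Anti a') : Anti (a + a') := by
  intro σ b
  rw [Pi.add_apply, Pi.add_apply, h, h', mul_add]

lemma anti_smul {i : ℕ} {a : Arr K A i} (c : ℂ) (h : Anti a) : Anti (c • a) := by
  intro σ b
  rw [Pi.smul_apply, Pi.smul_apply, h, smul_eq_mul, smul_eq_mul]
  ring

lemma anti_zero {i : ℕ} : Anti (0 : Arr K A i) := by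
  intro σ b
  simp

lemma anti_gen [∀ j, Fintype (K j)] : ∀ (c i : ℕ) (y : Arr K A i), y ∈ Gen (A := A) c i → Anti y
  | 0, i, y, hy => by
    rw [Gen] at hy
    induction hy using Submodule.span_induction with
    | mem x h => exact h
    | zero => exact anti_zero
    | add x y _ _ h h' => exact anti_sum h h'
    | smul c x _ h => exact anti_smul c h
  | c + 1, i + 2, y, hy => by
    rw [Gen] at hy
    induction hy using Submodule.span_induction with
    | mem x h =>
      obtain ⟨j, α, β, η, _, rfl⟩ := h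
      exact anti_wdg _ _
    | zero => exact anti_zero
    | add x y _ _ h h' => exact anti_sum h h'
    | smul c x _ h => exact anti_smul c h
  | c + 1, 0, y, hy => by
    rw [Gen, Submodule.mem_bot] at hy
    rw [hy]; exact anti_zero
  | c + 1, 1, y, hy => by
    rw [Gen, Submodule.mem_bot] at hy
    rw [hy]; exact anti_zero

variable [Fintype J] [∀ j, Fintype (K j)] [∀ j, Fintype (A j)]

/-- sums over the indices, antisymmetrized -/
lemma sum_anti {i : ℕ} {a : Arr K A i} (ha : Anti a) (G : Arr K A i) (σ : Equiv.Perm (Fin i)) :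
    ∑ b, ((Equiv.Perm.sign σ : ℤ) : ℂ) * G (b ∘ σ) * starRingEnd ℂ (a b) =
      ∑ b, G b * starRingEnd ℂ (a b) := by
  refine Fintype.sum_equiv (Equiv.arrowCongr σ.symm (Equiv.refl _)) _ _ fun b => ?_
  have e : (Equiv.arrowCongr σ.symm (Equiv.refl (Co K A))) b = b ∘ σ := by
    funext x; simp [Equiv.arrowCongr]
  rw [e, ha σ b]
  simp only [map_mul, map_intCast]
  ring

/-- the adjoint of the wedge product -/
lemma adjoint {i : ℕ} (j : J) (α β : A j) {a : Arr K A (i + 2)} (ha : Anti a) (η : Arr K A i) :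
    ∑ b, wdg (om j α β) η b * starRingEnd ℂ (a b) =
      (Nat.factorial (i + 2) : ℂ) * ∑ τ, η τ * starRingEnd ℂ (con j α β a τ) := by
  classical
  have h1 : ∑ b, wdg (om j α β) η b * starRingEnd ℂ (a b) =
      ∑ σ : Equiv.Perm (Fin (i + 2)), ∑ b, ((Equiv.Perm.sign σ : ℤ) : ℂ) *
        (fun b : Fin (i + 2) → Co K A => om j α β (b 0) (b 1) * η (fun m => b m.succ.succ)) (b ∘ σ) *
        starRingEnd ℂ (a b) := by
    rw [Finset.sum_comm]
    refine Finset.sum_congr rfl fun b _ => ?_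
    rw [wdg, Finset.sum_mul]
    rfl
  rw [h1, Finset.sum_congr rfl (fun σ _ => sum_anti ha
    (fun b : Fin (i + 2) → Co K A => om j α β (b 0) (b 1) * η (fun m => b m.succ.succ)) σ)]
  rw [Finset.sum_const, Finset.card_univ, Fintype.card_perm, Fintype.card_fin, nsmul_eq_mul]
  congr 1
  -- split off the first two entries
  have h2 : ∀ F : (Fin (i + 2) → Co K A) → ℂ, ∑ b, F b =
      ∑ s : Co K A, ∑ s' : Co K A, ∑ τ : Fin i → Co K A, F (Fin.cons s (Fin.cons s' τ)) := by
    intro F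
    rw [← (Fin.consEquiv (fun _ : Fin (i + 2) => Co K A)).sum_comp, Fintype.sum_prod_type]
    refine Finset.sum_congr rfl fun s _ => ?_
    rw [← (Fin.consEquiv (fun _ : Fin (i + 1) => Co K A)).sum_comp, Fintype.sum_prod_type]
    rfl
  rw [h2]
  have h3 : ∀ (s s' : Co K A) (τ : Fin i → Co K A),
      (om j α β ((Fin.cons s (Fin.cons s' τ) : Fin (i + 2) → Co K A) 0)
        ((Fin.cons s (Fin.cons s' τ) : Fin (i + 2) → Co K A) 1) *
        η (fun m => (Fin.cons s (Fin.cons s' τ) : Fin (i + 2) → Co K A) m.succ.succ)) *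
        starRingEnd ℂ (a (Fin.cons s (Fin.cons s' τ))) =
      om j α β s s' * (η τ * starRingEnd ℂ (a (Fin.cons s (Fin.cons s' τ)))) := by
    intro s s' τ
    have e1 : (Fin.cons s (Fin.cons s' τ) : Fin (i + 2) → Co K A) 1 = s' := rfl
    have e2 : (fun m : Fin i => (Fin.cons s (Fin.cons s' τ) : Fin (i + 2) → Co K A) m.succ.succ) =
        τ := rfl
    rw [e1, e2, Fin.cons_zero, mul_assoc]
  simp_rw [h3]
  -- the sum over the first two entries
  have h4 : ∀ F : Co K A → Co K A → ℂ, ∑ s, ∑ s', om j α β s s' * F s s' =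
      ∑ k : K j, (F (Sum.inl ⟨j, k, α⟩) (Sum.inr ⟨j, k, β⟩) +
        F (Sum.inl ⟨j, k, β⟩) (Sum.inr ⟨j, k, α⟩)) := by
    intro F
    have h5 : ∀ s s' : Co K A, om j α β s s' * F s s' = ∑ k : K j,
        ((if s = Sum.inl ⟨j, k, α⟩ ∧ s' = Sum.inr ⟨j, k, β⟩ then F s s' else 0) +
          (if s = Sum.inl ⟨j, k, β⟩ ∧ s' = Sum.inr ⟨j, k, α⟩ then F s s' else 0)) := by
      intro s s'
      rw [om, Finset.sum_mul]
      refine Finset.sum_congr rfl fun k _ => ?_
      rw [add_mul]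
      congr 1
      · split_ifs <;> simp
      · split_ifs <;> simp
    have h6 : ∀ (u u' : Co K A), ∑ s, ∑ s', (if s = u ∧ s' = u' then F s s' else 0) = F u u' := by
      intro u u'
      rw [Finset.sum_eq_single u, Finset.sum_eq_single u']
      · simp
      · intro s' _ hs'; simp [hs']
      · simp
      · intro s _ hs; simp [hs]
      · simp
    simp_rw [h5]
    calc ∑ s, ∑ s', ∑ k : K j,
        ((if s = Sum.inl ⟨j, k, α⟩ ∧ s' = Sum.inr ⟨j, k, β⟩ then F s s' else 0) +
          (if s = Sum.inl ⟨j, k, β⟩ ∧ s' = Sum.inr ⟨j, k, α⟩ then F s s' else 0))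
        = ∑ k : K j, ∑ s, ∑ s',
        ((if s = Sum.inl ⟨j, k, α⟩ ∧ s' = Sum.inr ⟨j, k, β⟩ then F s s' else 0) +
          (if s = Sum.inl ⟨j, k, β⟩ ∧ s' = Sum.inr ⟨j, k, α⟩ then F s s' else 0)) := by
          rw [Finset.sum_comm' (t' := Finset.univ) (s' := fun _ => Finset.univ) (by simp)]
          rw [Finset.sum_comm]
          simp_rw [Finset.sum_comm (s := Finset.univ (α := K j))]
      _ = _ := by
          refine Finset.sum_congr rfl fun k _ => ?_
          simp_rw [Finset.sum_add_distrib]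
          rw [h6, h6]
  have h7 : ∑ s : Co K A, ∑ s' : Co K A, ∑ τ : Fin i → Co K A,
      om j α β s s' * (η τ * starRingEnd ℂ (a (Fin.cons s (Fin.cons s' τ)))) =
      ∑ s : Co K A, ∑ s' : Co K A, om j α β s s' * ∑ τ : Fin i → Co K A,
        (η τ * starRingEnd ℂ (a (Fin.cons s (Fin.cons s' τ)))) := by
    refine Finset.sum_congr rfl fun s _ => Finset.sum_congr rfl fun s' _ => ?_
    rw [Finset.mul_sum]
  rw [h7, h4 (fun s s' => ∑ τ : Fin i → Co K A,
        (η τ * starRingEnd ℂ (a (Fin.cons s (Fin.cons s' τ)))))]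
  simp_rw [← Finset.sum_add_distrib]
  rw [Finset.sum_comm]
  refine Finset.sum_congr rfl fun τ _ => ?_
  rw [con, map_sum, Finset.mul_sum]
  refine Finset.sum_congr rfl fun k _ => ?_
  rw [map_add]
  ring

/-- the arrays orthogonal to the generated ones -/
lemma van_of_orth : ∀ (c i : ℕ) (a : Arr K A i), Anti a →
    (∀ y ∈ Gen (A := A) (K := K) c i, ∑ b, y b * starRingEnd ℂ (a b) = 0) → Van c i a
  | 0, i, a, ha, h => by
    show a = 0
    have h1 := h a (by rw [Gen]; exact Submodule.subset_span ha)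
    have h2 : ∑ b, ((Complex.normSq (a b) : ℝ) : ℂ) = 0 := by
      rw [← h1]
      refine Finset.sum_congr rfl fun b _ => ?_
      rw [Complex.mul_conj]
    have h3 : ∑ b, Complex.normSq (a b) = 0 := by exact_mod_cast h2
    rw [Finset.sum_eq_zero_iff_of_nonneg (fun b _ => Complex.normSq_nonneg _)] at h3
    funext b
    exact Complex.normSq_eq_zero.mp (h3 b (Finset.mem_univ b))
  | c + 1, 0, a, _, _ => trivial
  | c + 1, 1, a, _, _ => trivial
  | c + 1, i + 2, a, ha, h => by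
    show ∀ (j : J) (α β : A j), Van c i (con j α β a)
    intro j α β
    refine van_of_orth c i _ (anti_con ha j α β) fun η hη => ?_
    have h1 := h (wdg (om j α β) η) (by
      rw [Gen]; exact Submodule.subset_span ⟨j, α, β, η, hη, rfl⟩)
    rw [adjoint j α β ha η] at h1
    rcases mul_eq_zero.mp h1 with h2 | h2
    · exact absurd h2 (by exact_mod_cast Nat.factorial_ne_zero _)
    · exact h2

theorem t_Q_DUAL : Q_DUAL := by
  intro J K A _ _ _ i c x hx h
  classical
  by_contra hcon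
  obtain ⟨f, hfx, hf⟩ := Submodule.exists_le_ker_of_notMem hcon
  -- the coefficients of the functional
  obtain ⟨μ, hμ⟩ : ∃ μ : (Fin i → Co K A) → ℂ, ∀ y, f y = ∑ b, y b * μ b := by
    refine ⟨fun b => f (Pi.single b 1), fun y => ?_⟩
    conv_lhs => rw [← Finset.univ_sum_single y]
    rw [map_sum]
    refine Finset.sum_congr rfl fun b _ => ?_
    have : (Pi.single b (y b) : (Fin i → Co K A) → ℂ) = y b • Pi.single b 1 := by
      rw [← Pi.single_smul, smul_eq_mul, mul_one]
    rw [this, map_smul, smul_eq_mul]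
  have hfac : (Nat.factorial i : ℂ) ≠ 0 := by exact_mod_cast Nat.factorial_ne_zero _
  set a : Arr K A i := fun b => starRingEnd ℂ ((Nat.factorial i : ℂ)⁻¹ *
    ∑ σ : Equiv.Perm (Fin i), ((Equiv.Perm.sign σ : ℤ) : ℂ) * μ (b ∘ σ)) with ha
  have hanti : Anti a := by
    intro ρ b
    simp only [ha]
    have h1 : ∑ σ : Equiv.Perm (Fin i), ((Equiv.Perm.sign σ : ℤ) : ℂ) * μ ((b ∘ ρ) ∘ σ) =
        ((Equiv.Perm.sign ρ : ℤ) : ℂ) * ∑ σ : Equiv.Perm (Fin i),
          ((Equiv.Perm.sign σ : ℤ) : ℂ) * μ (b ∘ σ) := by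
      rw [Finset.mul_sum]
      refine Fintype.sum_equiv (Equiv.mulLeft ρ) _ _ fun σ => ?_
      have h : ((Equiv.Perm.sign ρ : ℤ) : ℂ) * ((Equiv.Perm.sign ρ : ℤ) : ℂ) = 1 := by
        rcases Int.units_eq_one_or (Equiv.Perm.sign ρ) with h | h <;> rw [h] <;> simp
      simp only [Equiv.coe_mulLeft, Equiv.Perm.sign_mul, Units.val_mul, Int.cast_mul]
      have e : (b ∘ ρ) ∘ σ = b ∘ (ρ * σ : Equiv.Perm (Fin i)) := rfl
      rw [e]
      linear_combination (-((Equiv.Perm.sign σ : ℤ) : ℂ) * μ (b ∘ (ρ * σ : Equiv.Perm (Fin i)))) * h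
    rw [h1]
    simp only [map_mul, map_intCast]
    ring
  have hsum : ∀ y : Arr K A i, Anti y → ∑ b, y b * starRingEnd ℂ (a b) = f y := by
    intro y hy
    rw [hμ]
    simp only [ha, Complex.conj_conj]
    have h1 : ∀ σ : Equiv.Perm (Fin i), ∑ b, y b * (((Equiv.Perm.sign σ : ℤ) : ℂ) * μ (b ∘ σ)) =
        ∑ b, y b * μ b := by
      intro σ
      refine Fintype.sum_equiv (Equiv.arrowCongr σ.symm (Equiv.refl _)) _ _ fun b => ?_
      have e : (Equiv.arrowCongr σ.symm (Equiv.refl (Co K A))) b = b ∘ σ := by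
        funext x; simp [Equiv.arrowCongr]
      rw [e, hy σ b]
      ring
    calc ∑ b, y b * ((Nat.factorial i : ℂ)⁻¹ *
          ∑ σ : Equiv.Perm (Fin i), ((Equiv.Perm.sign σ : ℤ) : ℂ) * μ (b ∘ σ))
        = (Nat.factorial i : ℂ)⁻¹ * ∑ σ : Equiv.Perm (Fin i),
          ∑ b, y b * (((Equiv.Perm.sign σ : ℤ) : ℂ) * μ (b ∘ σ)) := by
          rw [Finset.sum_comm, Finset.mul_sum]
          refine Finset.sum_congr rfl fun b _ => ?_
          rw [← Finset.mul_sum]
          ring
      _ = ∑ b, y b * μ b := by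
          simp_rw [h1]
          rw [Finset.sum_const, Finset.card_univ, Fintype.card_perm, Fintype.card_fin,
            nsmul_eq_mul, ← mul_assoc, inv_mul_cancel₀ hfac, one_mul]
  have hvan : Van c i a := by
    refine van_of_orth c i a hanti fun y hy => ?_
    rw [hsum y (anti_gen c i y hy)]
    exact hf hy
  apply hfx
  rw [← hsum x hx]
  exact h a hanti hvan

end Pool.Agent.T2h59.Q15
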